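import Mathlib

/-!
Weighted polynomials with respect to a family of self-maps of a space, modulo a filter.
-/

open Filter Finset

namespace Pool.Agent.FpSys24

variable {X ι A B R : Type*}

section add

variable [AddCommGroup A]

/-- The difference operator of the self-map `τ i`. -/
def dop (τ : ι → X → X) (i : ι) : AddMonoid.End (X → A) where
  toFun f := fun x => f (τ i x) - f x
  map_zero' := by ext x; simp
  map_add' f g := by ext x; simp only [Pi.add_apply]; abel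

theorem dop_apply (τ : ι → X → X) (i : ι) (f : X → A) (x : X) :
    dop τ i f x = f (τ i x) - f x := rfl

/-- The iterated difference operator of a list. -/
def dl (τ : ι → X → X) (L : List ι) : AddMonoid.End (X → A) := (L.map (dop τ)).prod

@[simp] theorem dl_nil (τ : ι → X → X) (f : X → A) : dl τ [] f = f := rfl

theorem dl_cons (τ : ι → X → X) (i : ι) (L : List ι) (f : X → A) :
    dl τ (i :: L) f = dop τ i (dl τ L f) := by
  simp [dl]

theorem dl_append (τ : ι → X → X) (L L' : List ι) (f : X → A) :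
    dl τ (L ++ L') f = dl τ L (dl τ L' f) := by
  simp [dl]

theorem dl_concat (τ : ι → X → X) (L : List ι) (i : ι) (f : X → A) :
    dl τ (L ++ [i]) f = dl τ L (dop τ i f) := by
  rw [dl_append]; simp [dl]

/-- Functions killed, modulo the filter, by all iterated differences of total weight `≥ n`. -/
def WPol (𝓕 : Filter X) (τ : ι → X → X) (wt : ι → ℕ) (n : ℕ) : AddSubgroup (X → A) where
  carrier := {f | ∀ L : List ι, n ≤ (L.map wt).sum → dl τ L f =ᶠ[𝓕] 0}
  zero_mem' := by intro L _; rw [map_zero]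
  add_mem' := by
    intro f g hf hg L hL
    rw [map_add]
    simpa using (hf L hL).add (hg L hL)
  neg_mem' := by
    intro f hf L hL
    rw [map_neg]
    simpa using (hf L hL).neg

theorem mem_WPol {𝓕 : Filter X} {τ : ι → X → X} {wt : ι → ℕ} {n : ℕ} {f : X → A} :
    f ∈ WPol 𝓕 τ wt n ↔ ∀ L : List ι, n ≤ (L.map wt).sum → dl τ L f =ᶠ[𝓕] 0 := Iff.rfl

theorem WPol_mono {𝓕 : Filter X} {τ : ι → X → X} {wt : ι → ℕ} {m n : ℕ} (h : m ≤ n) :
    (WPol 𝓕 τ wt m : AddSubgroup (X → A)) ≤ WPol 𝓕 τ wt n :=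
  fun _ hf L hL => hf L (h.trans hL)

theorem dop_null {𝓕 : Filter X} {τ : ι → X → X} (hτ : ∀ i, Tendsto (τ i) 𝓕 𝓕) {f : X → A}
    (hf : f =ᶠ[𝓕] 0) (i : ι) : dop τ i f =ᶠ[𝓕] 0 := by
  have h1 := (hτ i).eventually hf
  filter_upwards [h1, hf] with x h1 h2
  rw [dop_apply, h1, h2]; simp

theorem dl_null {𝓕 : Filter X} {τ : ι → X → X} (hτ : ∀ i, Tendsto (τ i) 𝓕 𝓕) {f : X → A}
    (hf : f =ᶠ[𝓕] 0) (L : List ι) : dl τ L f =ᶠ[𝓕] 0 := by
  induction L with
  | nil => simpa using hf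
  | cons i L ih => rw [dl_cons]; exact dop_null hτ ih i

theorem null_mem_WPol {𝓕 : Filter X} {τ : ι → X → X} (hτ : ∀ i, Tendsto (τ i) 𝓕 𝓕)
    {wt : ι → ℕ} {f : X → A}
    (hf : f =ᶠ[𝓕] 0) (n : ℕ) : f ∈ WPol 𝓕 τ wt n := fun L _ => dl_null hτ hf L

theorem mem_WPol_zero {𝓕 : Filter X} {τ : ι → X → X} (hτ : ∀ i, Tendsto (τ i) 𝓕 𝓕)
    {wt : ι → ℕ} {f : X → A} : f ∈ WPol 𝓕 τ wt 0 ↔ f =ᶠ[𝓕] 0 := by
  constructor
  · intro h; simpa using h [] (by simp)
  · intro h; exact null_mem_WPol hτ h 0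

theorem WPol_congr {𝓕 : Filter X} {τ : ι → X → X} (hτ : ∀ i, Tendsto (τ i) 𝓕 𝓕)
    {wt : ι → ℕ} {f g : X → A} {n : ℕ} (hf : f ∈ WPol 𝓕 τ wt n)
    (hfg : f =ᶠ[𝓕] g) : g ∈ WPol 𝓕 τ wt n := by
  have h1 : g - f ∈ (WPol 𝓕 τ wt n : AddSubgroup (X → A)) := by
    apply null_mem_WPol hτ
    filter_upwards [hfg] with x hx
    simp [hx]
  have := add_mem h1 hf
  simpa using this

theorem dop_mem {𝓕 : Filter X} {τ : ι → X → X}
    {wt : ι → ℕ} {f : X → A} {n : ℕ} (hf : f ∈ WPol 𝓕 τ wt n) (i : ι) :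
    dop τ i f ∈ WPol 𝓕 τ wt (n - wt i) := by
  intro L hL
  rw [← dl_concat]
  apply hf
  simp
  omega

theorem dop_mem' {𝓕 : Filter X} {τ : ι → X → X}
    {wt : ι → ℕ} {f : X → A} {n m : ℕ} (hf : f ∈ WPol 𝓕 τ wt n) (i : ι) (h : n - wt i ≤ m) :
    dop τ i f ∈ WPol 𝓕 τ wt m := WPol_mono h (dop_mem hf i)

theorem mem_of_dop {𝓕 : Filter X} {τ : ι → X → X}
    {wt : ι → ℕ} {f : X → A} {n : ℕ} (hf : ∀ i, dop τ i f ∈ WPol 𝓕 τ wt (n + 1 - wt i)) :
    f ∈ WPol 𝓕 τ wt (n + 1) := by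
  intro L hL
  rcases List.eq_nil_or_concat L with h | ⟨L', i, h⟩
  · subst h; simp at hL
  · subst h
    rw [List.concat_eq_append, dl_concat]
    apply hf i
    simp at hL
    omega

theorem mem_succ_iff {𝓕 : Filter X} {τ : ι → X → X}
    {wt : ι → ℕ} {f : X → A} {n : ℕ} :
    f ∈ WPol 𝓕 τ wt (n + 1) ↔ ∀ i, dop τ i f ∈ WPol 𝓕 τ wt (n + 1 - wt i) :=
  ⟨fun h i => dop_mem h i, mem_of_dop⟩

theorem const_mem {𝓕 : Filter X} {τ : ι → X → X} (hτ : ∀ i, Tendsto (τ i) 𝓕 𝓕)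
    {wt : ι → ℕ} (a : A) (n : ℕ) :
    (fun _ => a) ∈ WPol 𝓕 τ wt (n + 1) := by
  apply mem_of_dop
  intro i
  apply null_mem_WPol hτ
  filter_upwards with x
  simp [dop_apply]

/-- Composition with an additive homomorphism. -/
theorem comp_hom_mem [AddCommGroup B] {𝓕 : Filter X} {τ : ι → X → X}
    {wt : ι → ℕ} (φ : A →+ B) {f : X → A} {n : ℕ} (hf : f ∈ WPol 𝓕 τ wt n) :
    (fun x => φ (f x)) ∈ WPol 𝓕 τ wt n := by
  intro L hL
  have key : ∀ (L : List ι), dl τ L (fun x => φ (f x)) = fun x => φ (dl τ L f x) := by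
    intro L
    induction L with
    | nil => rfl
    | cons i L ih =>
      rw [dl_cons, ih, dl_cons]
      funext x
      simp [dop_apply]
  rw [key]
  filter_upwards [hf L hL] with x hx
  simp [hx]

end add

section ring

variable [CommRing R]

theorem dop_mul (τ : ι → X → X) (i : ι) (f g : X → R) :
    dop τ i (f * g) = dop τ i f * dop τ i g + dop τ i f * g + f * dop τ i g := by
  funext x
  simp only [dop_apply, Pi.mul_apply, Pi.add_apply]
  ring

theorem null_mul {𝓕 : Filter X} {f g : X → R} (hf : f =ᶠ[𝓕] 0) : f * g =ᶠ[𝓕] 0 := by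
  filter_upwards [hf] with x hx
  simp [hx]

theorem mul_null {𝓕 : Filter X} {f g : X → R} (hg : g =ᶠ[𝓕] 0) : f * g =ᶠ[𝓕] 0 := by
  filter_upwards [hg] with x hx
  simp [hx]

/-- The Leibniz rule. -/
theorem mul_mem_WPol {𝓕 : Filter X} {τ : ι → X → X} (hτ : ∀ i, Tendsto (τ i) 𝓕 𝓕)
    {wt : ι → ℕ} (hwt : ∀ i, 1 ≤ wt i) : ∀ (N a b : ℕ) (f g : X → R), a + b ≤ N →
    f ∈ WPol 𝓕 τ wt (a + 1) → g ∈ WPol 𝓕 τ wt (b + 1) → f * g ∈ WPol 𝓕 τ wt (a + b + 1) := by
  intro N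
  induction N with
  | zero =>
    intro a b f g hab hf hg
    have ha : a = 0 := by omega
    have hb : b = 0 := by omega
    subst ha; subst hb
    apply mem_of_dop
    intro i
    rw [dop_mul]
    have h1 : dop τ i f =ᶠ[𝓕] 0 := by
      have := dop_mem hf i
      rw [show 0 + 1 - wt i = 0 by have := hwt i; omega] at this
      exact (mem_WPol_zero hτ).1 this
    have h2 : dop τ i g =ᶠ[𝓕] 0 := by
      have := dop_mem hg i
      rw [show 0 + 1 - wt i = 0 by have := hwt i; omega] at this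
      exact (mem_WPol_zero hτ).1 this
    exact add_mem (add_mem (null_mem_WPol hτ (null_mul h1) _) (null_mem_WPol hτ (null_mul h1) _))
      (null_mem_WPol hτ (mul_null h2) _)
  | succ N ih =>
    intro a b f g hab hf hg
    apply mem_of_dop
    intro i
    rw [dop_mul]
    have hi := hwt i
    have hf' := dop_mem hf i
    have hg' := dop_mem hg i
    refine add_mem (add_mem ?_ ?_) ?_
    · by_cases h : wt i ≤ a
      · by_cases h' : wt i ≤ b
        · obtain ⟨a', ha'⟩ := Nat.exists_eq_add_of_le h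
          obtain ⟨b', hb'⟩ := Nat.exists_eq_add_of_le h'
          have e1 : a + 1 - wt i = a' + 1 := by omega
          have e2 : b + 1 - wt i = b' + 1 := by omega
          rw [e1] at hf'; rw [e2] at hg'
          exact WPol_mono (by omega) (ih a' b' _ _ (by omega) hf' hg')
        · have e2 : b + 1 - wt i = 0 := by omega
          rw [e2] at hg'
          exact null_mem_WPol hτ (mul_null ((mem_WPol_zero hτ).1 hg')) _
      · have e2 : a + 1 - wt i = 0 := by omega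
        rw [e2] at hf'
        exact null_mem_WPol hτ (null_mul ((mem_WPol_zero hτ).1 hf')) _
    · by_cases h : wt i ≤ a
      · obtain ⟨a', ha'⟩ := Nat.exists_eq_add_of_le h
        have e1 : a + 1 - wt i = a' + 1 := by omega
        rw [e1] at hf'
        exact WPol_mono (by omega) (ih a' b _ _ (by omega) hf' hg)
      · have e2 : a + 1 - wt i = 0 := by omega
        rw [e2] at hf'
        exact null_mem_WPol hτ (null_mul ((mem_WPol_zero hτ).1 hf')) _
    · by_cases h : wt i ≤ b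
      · obtain ⟨b', hb'⟩ := Nat.exists_eq_add_of_le h
        have e1 : b + 1 - wt i = b' + 1 := by omega
        rw [e1] at hg'
        exact WPol_mono (by omega) (ih a b' _ _ (by omega) hf hg')
      · have e2 : b + 1 - wt i = 0 := by omega
        rw [e2] at hg'
        exact null_mem_WPol hτ (mul_null ((mem_WPol_zero hτ).1 hg')) _

theorem mul_mem_WPol' {𝓕 : Filter X} {τ : ι → X → X} (hτ : ∀ i, Tendsto (τ i) 𝓕 𝓕)
    {wt : ι → ℕ} (hwt : ∀ i, 1 ≤ wt i) {a b : ℕ} {f g : X → R}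
    (hf : f ∈ WPol 𝓕 τ wt (a + 1)) (hg : g ∈ WPol 𝓕 τ wt (b + 1)) :
    f * g ∈ WPol 𝓕 τ wt (a + b + 1) :=
  mul_mem_WPol hτ hwt (a + b) a b f g le_rfl hf hg

/-- A product of degrees `≤ a` and `< n` (with `n = 0` meaning null). -/
theorem mul_mem_WPol'' {𝓕 : Filter X} {τ : ι → X → X} (hτ : ∀ i, Tendsto (τ i) 𝓕 𝓕)
    {wt : ι → ℕ} (hwt : ∀ i, 1 ≤ wt i) {a n : ℕ} {f g : X → R}
    (hf : f ∈ WPol 𝓕 τ wt (a + 1)) (hg : g ∈ WPol 𝓕 τ wt n) :
    f * g ∈ WPol 𝓕 τ wt (a + n) := by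
  rcases n with _ | n
  · exact null_mem_WPol hτ (mul_null ((mem_WPol_zero hτ).1 hg)) _
  · exact mul_mem_WPol' hτ hwt hf hg

end ring

end Pool.Agent.FpSys24
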